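import Mathlib

/-!
Counterexample to the colex-diversity conjecture, exactly as posed.
Parameters: s = 1, k = 4, n = 6, n 1 = 7, x = y = 3, so t = 34 and the claimed bound is 57.
The family consists of all 5-subsets of [7] together with the sets G + 8, where G runs over the
4-subsets of [6] other than 3456 and 1256.  It has exactly t = 34 members, is not a copy of the
colex initial segment (which has a point of degree 25), and its shadow has 55 members.
-/

open Finset

namespace Pool.Agent.Results.MP_247656_co.Disproof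

/-- The generalised binomial coefficient z (z-1) ... (z-m+1) / m! for real z. -/
noncomputable def rbinom (z : ℝ) (m : ℕ) : ℝ :=
  (∏ i ∈ Finset.range m, (z - (i : ℝ))) / (m.factorial : ℝ)

/-- The first ⌈t⌉ r-subsets of the positive integers in colex order: the r-sets that have fewer
than ⌈t⌉ r-sets strictly before them in colex. -/
def colexInit (r : ℕ) (t : ℝ) : Set (Finset ℕ+) :=
  {A | A.card = r ∧ {B : Finset ℕ+ | B.card = r ∧ toColex B < toColex A}.ncard < ⌈t⌉₊}

/-- Colex diversity of a family F of r-sets: the least number of members of F outside the image of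
the colex initial segment under a permutation of the ground set. -/
noncomputable def colexDiv (r : ℕ) (F : Finset (Finset ℕ+)) (t : ℝ) : ℕ :=
  ⨅ σ : Equiv.Perm ℕ+,
    ((F : Set (Finset ℕ+)) \ ((fun A : Finset ℕ+ => A.image σ) '' colexInit r t)).ncard

/-- the ground set [8] -/
def g8 : Finset ℕ+ := {1, 2, 3, 4, 5, 6, 7, 8}

/-- the first 34 five-sets in colex -/
def C34 : Finset (Finset ℕ+) :=
  (powersetCard 5 g8).filter
    (fun A => ¬ (7 ∈ A ∧ 8 ∈ A) ∧ A ≠ {3, 4, 5, 6, 8} ∧ A ≠ {2, 4, 5, 6, 8})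

/-- the counterexample -/
def F34 : Finset (Finset ℕ+) :=
  (powersetCard 5 g8).filter
    (fun A => ¬ (7 ∈ A ∧ 8 ∈ A) ∧ A ≠ {3, 4, 5, 6, 8} ∧ A ≠ {1, 2, 5, 6, 8})

lemma card_C34 : C34.card = 34 := by decide +kernel
lemma card_F34 : F34.card = 34 := by decide +kernel
lemma shadow_F34 : (Finset.shadow F34).card = 55 := by decide +kernel
lemma sized_F34 : ∀ A ∈ F34, A.card = 5 := by decide +kernel
lemma sized_C34 : ∀ A ∈ C34, A.card = 5 ∧ A ⊆ g8 := by decide +kernel
lemma deg_C34 : (C34.filter (fun A => (1 : ℕ+) ∈ A)).card = 25 := by decide +kernel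
lemma deg_F34 : ∀ v ∈ g8, (F34.filter (fun A => v ∈ A)).card ≤ 24 := by decide +kernel
lemma sub_F34 : ∀ A ∈ F34, A ⊆ g8 := by decide +kernel
lemma lt_small : ∀ A ∈ powersetCard 5 g8, A ∉ C34 → ∀ B ∈ C34,
    ∃ a ∈ A, a ∉ B ∧ ∀ b ∈ B, b ∉ A → b < a := by decide +kernel
lemma g8_le : ∀ b ∈ g8, b ≤ 8 := by decide +kernel

lemma g8_eq : g8 = Finset.Icc 1 8 := by decide +kernel

lemma mem_g8 (a : ℕ+) (h : a ≤ 8) : a ∈ g8 := by
  rw [g8_eq, Finset.mem_Icc]
  exact ⟨a.2, h⟩

lemma finite_below (r : ℕ) (A : Finset ℕ+) :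
    {B : Finset ℕ+ | B.card = r ∧ toColex B < toColex A}.Finite := by
  obtain ⟨M, hM⟩ := A.bddAbove
  refine (Finset.Iic M).powerset.finite_toSet.subset ?_
  intro B hB
  simp only [coe_powerset, Set.mem_preimage, Set.mem_powerset_iff, coe_Iic]
  intro b hb
  exact Colex.forall_le_mono hB.2.le (fun c hc => hM hc) b hb

lemma colexInit_subset : colexInit 5 34 ⊆ (C34 : Set (Finset ℕ+)) := by
  intro A hA
  obtain ⟨hc, hlt⟩ := hA
  by_contra hn
  have hn' : A ∉ C34 := hn
  have hsub : (C34 : Set (Finset ℕ+)) ⊆ {B : Finset ℕ+ | B.card = 5 ∧ toColex B < toColex A} := by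
    intro B hB
    have hB' : B ∈ C34 := hB
    refine ⟨(sized_C34 B hB').1, ?_⟩
    rw [Colex.toColex_lt_toColex_iff_exists_forall_lt]
    by_cases h8 : A ⊆ g8
    · exact lt_small A (mem_powersetCard.2 ⟨h8, hc⟩) hn' B hB'
    · obtain ⟨a, haA, ha⟩ := not_subset.1 h8
      have ha8 : 8 < a := by
        by_contra h
        exact ha (mem_g8 a (not_lt.1 h))
      refine ⟨a, haA, fun h => ha ((sized_C34 B hB').2 h), fun b hb _ => ?_⟩
      exact lt_of_le_of_lt (g8_le b ((sized_C34 B hB').2 hb)) ha8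
  have h1 := Set.ncard_le_ncard hsub (finite_below 5 A)
  rw [Set.ncard_coe_finset, card_C34] at h1
  have h2 : ⌈(34 : ℝ)⌉₊ = 34 := by
    have : (34 : ℝ) = ((34 : ℕ) : ℝ) := by norm_num
    rw [this, Nat.ceil_natCast]
  omega

lemma one_le_div : 1 ≤ colexDiv 5 F34 34 := by
  unfold colexDiv
  refine le_ciInf fun σ => ?_
  have hfin : ((F34 : Set (Finset ℕ+)) \
      ((fun A : Finset ℕ+ => A.image σ) '' colexInit 5 34)).Finite :=
    F34.finite_toSet.subset Set.sdiff_subset
  rw [Nat.one_le_iff_ne_zero]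
  intro h0
  rw [Set.ncard_eq_zero hfin, Set.sdiff_eq_empty] at h0
  have hsub : F34 ⊆ C34.image (fun A : Finset ℕ+ => A.image σ) := by
    intro A hA
    obtain ⟨B, hB, rfl⟩ := h0 hA
    exact mem_image.2 ⟨B, colexInit_subset hB, rfl⟩
  have heq : F34 = C34.image (fun A : Finset ℕ+ => A.image σ) :=
    eq_of_subset_of_card_le hsub (by
      rw [card_F34, ← card_C34]; exact card_image_le)
  have hinj : Function.Injective (fun A : Finset ℕ+ => A.image σ) :=
    Finset.image_injective σ.injective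
  have hdeg : (F34.filter (fun A => σ 1 ∈ A)).card = 25 := by
    rw [← deg_C34, heq, filter_image, card_image_of_injective _ hinj]
    congr 1
    apply filter_congr
    intro A _
    simp
  by_cases hv : σ 1 ∈ g8
  · have := deg_F34 _ hv
    omega
  · have : F34.filter (fun A => σ 1 ∈ A) = ∅ := by
      rw [filter_eq_empty_iff]
      intro A hA h
      exact hv (sub_F34 A hA h)
    rw [this] at hdeg
    simp at hdeg

/-- The conjecture of Q1 fails: there are admissible parameters and a family F of (k+s)-sets with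
exactly t members (so |F| ≥ t) and colex diversity at least binom(x, k-1) whose shadow is strictly
smaller than the displayed bound. -/
theorem result :
    ∃ (s k n : ℕ) (m : ℕ → ℕ) (x y t : ℝ) (F : Finset (Finset ℕ+)),
      0 < s ∧ 0 < k ∧ k < n ∧ n < m 1 ∧ (∀ i, 1 ≤ i → i < s → m i < m (i + 1)) ∧
      (k : ℝ) - 1 ≤ x ∧ x ≤ (n : ℝ) - 3 ∧ (n : ℝ) - k ≤ y ∧ y ≤ (n : ℝ) - 3 ∧
      t = (∑ i ∈ Finset.Icc 1 s, ((m i).choose (k + i) : ℝ)) + (n.choose k : ℝ)
            - rbinom y (n - k) + rbinom x (k - 1) ∧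
      (∀ A ∈ F, A.card = k + s) ∧
      (F.card : ℝ) = t ∧
      rbinom x (k - 1) ≤ (colexDiv (k + s) F t : ℝ) ∧
      ((Finset.shadow F).card : ℝ) <
        (∑ i ∈ Finset.Icc 1 s, ((m i).choose (k + i - 1) : ℝ)) + (n.choose (k - 1) : ℝ)
            - rbinom y (n - k + 1) + rbinom x (k - 2) := by
  have h1 : rbinom 3 3 = 1 := by
    simp [rbinom, Finset.prod_range_succ, Nat.factorial]; norm_num
  have h2 : rbinom 3 2 = 3 := by
    simp [rbinom, Finset.prod_range_succ, Nat.factorial]; norm_num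
  refine ⟨1, 4, 6, fun _ => 7, 3, 3, 34, F34, by norm_num, by norm_num, by norm_num, by norm_num,
    fun i h1 h2 => by omega, by norm_num, by norm_num, by norm_num, by norm_num, ?_, sized_F34,
    ?_, ?_, ?_⟩
  · simp only [Finset.Icc_self, Finset.sum_singleton]
    norm_num [h1, h2, Nat.choose]
  · rw [card_F34]; norm_num
  · have := one_le_div
    simp only [Nat.reduceSub, Nat.reduceAdd, h1]
    exact_mod_cast this
  · rw [shadow_F34]
    simp only [Finset.Icc_self, Finset.sum_singleton]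
    norm_num [h1, h2, Nat.choose]

end Pool.Agent.Results.MP_247656_co.Disproof
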