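import Pool.Agent.P.MP_247656_co.R.Main
import Pool.Agent.P.MP_247656_co.R.Link

/-!
The colex-diversity stability form of Kruskal-Katona holds when the diversity is measured against
a colex segment with at least t0 = binom(n_s,k+s) + ... + binom(n_1,k+1) + binom(n,k) members.
-/

open Finset

namespace Pool.Agent.Results.MP_247656_co.Repaired

/-- The generalised binomial coefficient z (z-1) ... (z-m+1) / m! for real z. -/
noncomputable def rbinom (z : ℝ) (m : ℕ) : ℝ :=
  (∏ i ∈ Finset.range m, (z - (i : ℝ))) / (m.factorial : ℝ)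

/-- The first ⌈t⌉ r-subsets of the positive integers in colex order: the r-sets that have fewer
than ⌈t⌉ r-sets strictly before them in colex. -/
def colexInit (r : ℕ) (t : ℝ) : Set (Finset ℕ+) :=
  {A | A.card = r ∧ {B : Finset ℕ+ | B.card = r ∧ toColex B < toColex A}.ncard < ⌈t⌉₊}

/-- Colex diversity of a family F of r-sets: the least number of members of F outside the image of
the colex initial segment under a permutation of the ground set. -/
noncomputable def colexDiv (r : ℕ) (F : Finset (Finset ℕ+)) (t : ℝ) : ℕ :=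
  ⨅ σ : Equiv.Perm ℕ+,
    ((F : Set (Finset ℕ+)) \ ((fun A : Finset ℕ+ => A.image σ) '' colexInit r t)).ncard

open Pool.Agent.P.MP_247656_co.R

lemma T_eq (n s k : ℕ) (m : ℕ → ℕ) :
    T (fun i => if i = 0 then n else m i) k s
      = (∑ i ∈ Finset.Icc 1 s, (m i).choose (k + i)) + n.choose k := by
  induction s with
  | zero => simp [T_zero]
  | succ s ih =>
    rw [T_succ, ih, Finset.sum_Icc_succ_top (by omega)]
    simp only [Nat.succ_ne_zero, if_false]
    rw [add_assoc k s 1]
    ring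

/-- Let n_s > ... > n_1 > n > k > 0, k-1 ≤ x ≤ n-3, n-k ≤ y ≤ n-3 and
t0 = binom(n_s,k+s) + ... + binom(n_1,k+1) + binom(n,k).  Every family F of (k+s)-sets with
|F| ≥ t0 - binom(y,n-k) + binom(x,k-1) whose colex diversity with respect to some τ ≥ t0 is at
least binom(x,k-1) satisfies the conjectured shadow bound. -/
theorem result (s k n : ℕ) (m : ℕ → ℕ) (x y τ : ℝ) (F : Finset (Finset ℕ+))
    (hk : 0 < k) (hkn : k < n) (hm1 : n < m 1) (hm : ∀ i, 1 ≤ i → i < s → m i < m (i + 1))
    (hx1 : (k : ℝ) - 1 ≤ x) (hx2 : x ≤ (n : ℝ) - 3)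
    (hy1 : (n : ℝ) - k ≤ y) (hy2 : y ≤ (n : ℝ) - 3)
    (hτ : (∑ i ∈ Finset.Icc 1 s, ((m i).choose (k + i) : ℝ)) + (n.choose k : ℝ) ≤ τ)
    (hF : ∀ A ∈ F, A.card = k + s)
    (hsize : (∑ i ∈ Finset.Icc 1 s, ((m i).choose (k + i) : ℝ)) + (n.choose k : ℝ)
      - rbinom y (n - k) + rbinom x (k - 1) ≤ (F.card : ℝ))
    (hdiv : rbinom x (k - 1) ≤ (colexDiv (k + s) F τ : ℝ)) :
    (∑ i ∈ Finset.Icc 1 s, ((m i).choose (k + i - 1) : ℝ)) + (n.choose (k - 1) : ℝ)
      - rbinom y (n - k + 1) + rbinom x (k - 2) ≤ ((Finset.shadow F).card : ℝ) := by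
  have hk3 : 3 ≤ k := by
    have : (3 : ℝ) ≤ k := by linarith
    exact_mod_cast this
  obtain ⟨j, rfl⟩ : ∃ j, k = j + 2 := ⟨k - 2, by omega⟩
  obtain ⟨q, rfl⟩ : ∃ q, n = j + q + 2 := ⟨n - (j + 2), by omega⟩
  have e1 : j + q + 2 - (j + 2) = q := by omega
  have e2 : j + 2 - 1 = j + 1 := by omega
  have e3 : j + 2 - 2 = j := by omega
  have e4 : ∀ i, j + 2 + i - 1 = j + 1 + i := by intro i; omega
  simp only [e1, e2, e3, e4] at hsize hdiv ⊢
  change _ - rb y q + rb x (j + 1) ≤ _ at hsize
  change rb x (j + 1) ≤ _ at hdiv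
  change _ - rb y (q + 1) + rb x j ≤ _
  push_cast at hx1 hx2 hy1 hy2
  have hp : Par j q x y :=
    ⟨by omega, by omega, by linarith, by linarith, by linarith, by linarith⟩
  set a : ℕ → ℕ := fun i => if i = 0 then j + q + 2 else m i with ha
  have ha0 : a 0 = j + q + 2 := by simp [ha]
  have hinc : Inc a s := by
    intro i hi
    by_cases h : i = 0
    · subst h; simpa [ha] using hm1
    · simpa [ha, h] using hm i (by omega) hi
  have hT : ∀ k, (T a k s : ℝ) = (∑ i ∈ Finset.Icc 1 s, ((m i).choose (k + i) : ℝ))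
      + ((j + q + 2).choose k : ℝ) := by
    intro k
    rw [ha, T_eq]; push_cast; rfl
  rw [← hT] at hsize hτ ⊢
  have hinj : Function.Injective PNat.natPred := PNat.natPred_injective
  have hinj' : Function.Injective (fun A : Finset ℕ+ => A.image PNat.natPred) :=
    Finset.image_injective hinj
  set F' : Finset (Finset ℕ) := F.image (fun A => A.image PNat.natPred) with hF'
  set L := a s + (F'.sup id).sup id with hL
  obtain ⟨w, hw1, hw2, hw3⟩ := exists_word (a := a) (s := s) (L := L) hinc (by omega)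
  rw [ha0] at hw3
  have hg1 : 1 ≤ rb x (j + 1) := by
    have := rb_mono (z := ((j + 1 : ℕ) : ℝ)) (w := x) (m := j + 1) (by linarith)
      (by push_cast; linarith)
    rwa [rb_self] at this
  have hmain := stW w j q x y (range (j + q + 2 + 1 + w.length)) F' hp
    (fun h => by linarith [h.1]) (card_range _) ?_ ?_ ?_ ?_
  · rw [← hw3, hF', shadow_image hinj, card_image_of_injective _ hinj'] at hmain
    exact hmain
  · intro A hA
    obtain ⟨B, hB, rfl⟩ := mem_image.1 hA
    rw [card_image_of_injective _ hinj, hF B hB, hw2]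
  · intro A hA z hz
    have h1 : A ⊆ F'.sup id := Finset.le_sup (f := id) hA
    have h2 : z ≤ (F'.sup id).sup id := Finset.le_sup (f := id) (h1 hz)
    rw [mem_range]; omega
  · intro l hl
    obtain ⟨σ, hσ⟩ := link_pnat (j + q + 2) (j + 2) w l _ hl (card_range _)
    have h1 : colexDiv (j + 2 + s) F τ ≤ ((F : Set (Finset ℕ+)) \
        ((fun A : Finset ℕ+ => A.image σ) '' colexInit (j + 2 + s) τ)).ncard :=
      ciInf_le (OrderBot.bddBelow _) σ
    have h2 : ((F : Set (Finset ℕ+)) \
        ((fun A : Finset ℕ+ => A.image σ) '' colexInit (j + 2 + s) τ)).ncard ≤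
        (F' \ Seg w l (range (j + q + 2 + 1 + w.length)) (j + 2 + w.count true)).card := by
      rw [← Set.ncard_coe_finset]
      refine Set.ncard_le_ncard_of_injOn (fun A : Finset ℕ+ => A.image PNat.natPred) ?_
        hinj'.injOn (Finset.finite_toSet _)
      intro A hA
      rw [Finset.mem_coe, mem_sdiff]
      refine ⟨mem_image_of_mem _ hA.1, fun h => hA.2 ?_⟩
      obtain ⟨B, hB1, hB2, hB3⟩ := hσ A h
      rw [hw2] at hB2 hB3
      refine ⟨B, ⟨hB2, lt_of_lt_of_le hB3 ?_⟩, hB1⟩
      rw [← hw3]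
      have h3 : ((T a (j + 2) s : ℕ) : ℝ) ≤ (⌈τ⌉₊ : ℝ) := hτ.trans (Nat.le_ceil τ)
      exact_mod_cast h3
    have h3 : (colexDiv (j + 2 + s) F τ : ℝ) ≤
        (F' \ Seg w l (range (j + q + 2 + 1 + w.length)) (j + 2 + w.count true)).card := by
      exact_mod_cast h1.trans h2
    refine ⟨?_, by linarith⟩
    have : (1 : ℝ) ≤
        (F' \ Seg w l (range (j + q + 2 + 1 + w.length)) (j + 2 + w.count true)).card := by
      linarith
    exact_mod_cast this
  · rw [← hw3, hF', card_image_of_injective _ hinj']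
    exact hsize

end Pool.Agent.Results.MP_247656_co.Repaired
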